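import Pool.Agent.K7.H69.LC.Stm

/-!
Job STRUCT of project LC.
-/

set_option autoImplicit false

namespace Pool.Agent.K7.H53.LC

open Pool.Agent.K7.H69.LC List

lemma count_put (x g : ℕ) (w : List ℕ) (i : ℕ) :
    (put x g w).count i = w.count i + if i = x then 2 else 0 := by
  have h : (w.take g).count i + (w.drop g).count i = w.count i := by
    rw [← List.count_append, List.take_append_drop]
  unfold put
  rw [List.count_append, List.count_cons, List.count_cons]
  by_cases hx : i = x
  · subst hx; simp; omega
  · have : ¬ x = i := fun h => hx h.symm
    simp [hx, this]; omega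

lemma le_of_mem {n : ℕ} {w : List ℕ} (h : ∀ i, w.count i = if 1 ≤ i ∧ i ≤ n then 2 else 0)
    {i : ℕ} (hi : i ∈ w) : i ≤ n := by
  have h1 := List.count_pos_iff.mpr hi
  rw [h i] at h1
  by_contra hc
  rw [if_neg (by omega)] at h1
  omega

theorem stLen : StLen := by
  intro n w h
  have h1 : (w : Multiset ℕ) = (Finset.Icc 1 n).val + (Finset.Icc 1 n).val := by
    ext i
    rw [Multiset.coe_count, h.1 i, Multiset.count_add,
      Multiset.count_eq_of_nodup (Finset.Icc 1 n).nodup]
    by_cases hi : 1 ≤ i ∧ i ≤ n
    · simp [hi]
    · have : ¬ i ∈ (Finset.Icc 1 n).val := by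
        simpa [Finset.mem_Icc] using hi
      rw [if_neg hi, if_neg this]
  have h2 := congrArg Multiset.card h1
  simp at h2
  omega

/-- the condition in terms of sublists -/
lemma btw_iff (w : List ℕ) :
    (∀ (u v t : List ℕ) (i : ℕ), w = u ++ i :: (v ++ i :: t) → ∀ j ∈ v, i < j) ↔
    ∀ i j : ℕ, [i, j, i] <+ w → i < j := by
  constructor
  · intro h i j hs
    obtain ⟨r₁, r₂, hw, hi, hs2⟩ := List.cons_sublist_iff.mp hs
    obtain ⟨r₃, r₄, hw2, hj, hs3⟩ := List.cons_sublist_iff.mp hs2
    have hi2 : i ∈ r₄ := by simpa using hs3
    obtain ⟨a, b, rfl⟩ := List.append_of_mem hi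
    obtain ⟨c, d, rfl⟩ := List.append_of_mem hj
    obtain ⟨e, f, rfl⟩ := List.append_of_mem hi2
    refine h a (b ++ c ++ j :: d ++ e) f i ?_ j (by simp)
    rw [hw, hw2]
    simp
  · intro h u v t i hw j hj
    apply h
    rw [hw]
    have h1 : [j] <+ v := List.singleton_sublist.mpr hj
    have h2 : [i] <+ i :: t := List.singleton_sublist.mpr (by simp)
    have h3 : [j] ++ [i] <+ v ++ i :: t := h1.append h2
    have h4 : i :: ([j] ++ [i]) <+ i :: (v ++ i :: t) := h3.cons_cons i
    exact h4.trans (List.sublist_append_right u _)

lemma filter_put (x g : ℕ) (w : List ℕ) (hx : x ∉ w) :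
    (put x g w).filter (fun y => decide (y ≠ x)) = w := by
  have h1 : ∀ l : List ℕ, x ∉ l → l.filter (fun y => decide (y ≠ x)) = l := by
    intro l hl
    rw [List.filter_eq_self]
    intro a ha
    simp only [decide_eq_true_eq]
    rintro rfl
    exact hl ha
  unfold put
  rw [List.filter_append, h1 _ (fun h => hx (List.mem_of_mem_take h))]
  have h2 : (x :: x :: w.drop g).filter (fun y => decide (y ≠ x)) = w.drop g := by
    simp only [List.filter_cons]
    simp only [ne_eq, not_true_eq_false, decide_false, Bool.false_eq_true, if_false]
    exact h1 _ (fun h => hx (List.mem_of_mem_drop h))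
  rw [h2, List.take_append_drop]

theorem stStruct : StStruct := by
  intro n w
  constructor
  · intro h
    have hmem : n + 1 ∈ w := by
      rw [← List.count_pos_iff, h.1, if_pos (by omega)]
      norm_num
    obtain ⟨u, s, hw, hu⟩ := List.eq_append_cons_of_mem hmem
    have hcs : s.count (n + 1) = 1 := by
      have h1 := h.1 (n + 1)
      rw [if_pos (show 1 ≤ n + 1 ∧ n + 1 ≤ n + 1 by omega), hw, List.count_append,
        List.count_cons_self, List.count_eq_zero.mpr hu] at h1
      omega
    have hms : n + 1 ∈ s := by
      rw [← List.count_pos_iff, hcs]; norm_num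
    obtain ⟨v, t, hs, hv⟩ := List.eq_append_cons_of_mem hms
    have hv0 : v = [] := by
      rw [List.eq_nil_iff_forall_not_mem]
      intro j hj
      have h1 := h.2 u v t (n + 1) (by rw [hw, hs]) j hj
      have h2 : j ∈ w := by rw [hw, hs]; simp [hj]
      have h3 := le_of_mem h.1 h2
      omega
    subst hv0
    have hw2 : w = put (n + 1) u.length (u ++ t) := by
      rw [hw, hs]
      unfold put
      simp
    have hlen := stLen (n + 1) w h
    refine ⟨u ++ t, u.length, ⟨?_, ?_⟩, ?_, hw2⟩
    · intro i
      have h1 := h.1 i
      rw [hw2, count_put] at h1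
      by_cases hi : i = n + 1
      · subst hi
        rw [if_pos rfl, if_pos (by omega)] at h1
        rw [if_neg (by omega)]
        omega
      · rw [if_neg hi] at h1
        by_cases h2 : 1 ≤ i ∧ i ≤ n
        · rw [if_pos h2]
          rw [if_pos (by omega)] at h1
          omega
        · rw [if_neg h2]
          rw [if_neg (by omega)] at h1
          omega
    · rw [btw_iff]
      have h1 := (btw_iff w).mp h.2
      intro i j hij
      apply h1 i j
      refine hij.trans ?_
      rw [hw, hs]
      simp only [List.nil_append]
      refine List.Sublist.append (List.Sublist.refl u) ?_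
      exact ((List.Sublist.refl t).cons (n + 1)).cons (n + 1)
    · rw [hw, hs] at hlen
      simp at hlen
      omega
  · rintro ⟨w', g, h, hg, rfl⟩
    have hx : n + 1 ∉ w' := by
      intro hx
      have := le_of_mem h.1 hx
      omega
    refine ⟨?_, ?_⟩
    · intro i
      rw [count_put, h.1 i]
      by_cases hi : i = n + 1
      · subst hi
        rw [if_neg (by omega), if_pos rfl, if_pos (by omega)]
      · rw [if_neg hi]
        by_cases h2 : 1 ≤ i ∧ i ≤ n
        · rw [if_pos h2, if_pos (by omega)]
        · rw [if_neg h2, if_neg (by omega)]
    · rw [btw_iff]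
      intro i j hij
      have hle : ∀ y ∈ put (n + 1) g w', y ≤ n + 1 := by
        intro y hy
        unfold put at hy
        rw [List.mem_append] at hy
        rcases hy with hy | hy
        · have := le_of_mem h.1 (List.mem_of_mem_take hy); omega
        · simp only [List.mem_cons] at hy
          rcases hy with hy | hy | hy
          · omega
          · omega
          · have := le_of_mem h.1 (List.mem_of_mem_drop hy); omega
      have hi' : i ≤ n + 1 := hle i (hij.subset (by simp))
      by_cases hi : i = n + 1
      · exfalso
        subst hi
        unfold put at hij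
        obtain ⟨l₁, l₂, hl, h1, h2⟩ := List.sublist_append_iff.mp hij
        have hd : n + 1 ∉ w'.drop g := fun hh => hx (List.mem_of_mem_drop hh)
        have ht : n + 1 ∉ w'.take g := fun hh => hx (List.mem_of_mem_take hh)
        cases l₁ with
        | cons a l₁ =>
          rw [List.cons_append, List.cons.injEq] at hl
          exact ht (h1.subset (by rw [hl.1]; simp))
        | nil =>
          rw [List.nil_append] at hl
          rw [← hl] at h2
          have h3 : [n + 1, j, n + 1] <+ (n + 1) :: w'.drop g ∨ [j, n + 1] <+ (n + 1) :: w'.drop g := by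
            cases h2 with
            | cons _ h => exact Or.inl h
            | cons_cons _ h => exact Or.inr h
          rcases h3 with h3 | h3
          · cases h3 with
            | cons _ h => exact hd (h.subset (by simp))
            | cons_cons _ h => exact hd (h.subset (by simp))
          · have h4 : [n + 1] <+ w'.drop g := by
              cases h3 with
              | cons _ h => exact (List.sublist_of_cons_sublist h)
              | cons_cons _ h => exact h
            exact hd (h4.subset (by simp))
      · by_cases hj : j = n + 1
        · omega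
        · have h1 := (btw_iff w').mp h.2
          apply h1 i j
          have h2 := hij.filter (fun y => decide (y ≠ n + 1))
          rw [filter_put _ _ _ hx] at h2
          have h3 : [i, j, i].filter (fun y => decide (y ≠ n + 1)) = [i, j, i] := by
            rw [List.filter_eq_self]
            intro a ha
            simp only [List.mem_cons, List.not_mem_nil, or_false] at ha
            simp only [decide_eq_true_eq]
            rcases ha with rfl | rfl | rfl <;> assumption
          rw [h3] at h2
          exact h2

theorem stInj : StInj := by
  intro n w w' g g' h h' hg hg' he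
  have hx : n + 1 ∉ w := fun hx => by have := le_of_mem h.1 hx; omega
  have hx' : n + 1 ∉ w' := fun hx => by have := le_of_mem h'.1 hx; omega
  have hw : w = w' := by
    rw [← filter_put (n + 1) g w hx, ← filter_put (n + 1) g' w' hx', he]
  subst hw
  refine ⟨rfl, ?_⟩
  have key : ∀ k : ℕ, k ≤ 2 * n → (put (n + 1) k w).idxOf (n + 1) = k := by
    intro k hk
    have hlen := stLen n w h
    unfold put
    rw [List.idxOf_append_of_notMem (fun hh => hx (List.mem_of_mem_take hh)), List.idxOf_cons_self,
      List.length_take]
    omega
  rw [← key g hg, ← key g' hg', he]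

end Pool.Agent.K7.H53.LC
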